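import Pool.Agent.T2h59.LL.AP

/-!
# Arithmetic of `F_2[t]` and its finite adeles: tasks AQ, ID (helper59)
-/

set_option autoImplicit false
set_option linter.all false

open scoped Polynomial WithZero
open IsDedekindDomain WithZero

namespace Pool.Agent.T2h59.LL

open Pool.Agent.T2h66.LL

lemma aF_ne_zero {N : A} (hN : N ≠ 0) (v : Pl) : Valued.v (aF N v) ≠ 0 := by
  rw [val_A]
  exact v.intValuation_ne_zero N hN

theorem exists_mul (b : Af) : ∃ N : A, N ≠ 0 ∧ ∀ v : Pl, Valued.v ((aF N * b) v) ≤ 1 := by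
  classical
  have hfin : {v : Pl | ¬ (Valued.v (b v) ≤ 1)}.Finite := by
    have h := b.2
    rw [Filter.eventually_cofinite] at h
    exact h
  have hex : ∀ v : Pl, ∃ n : A, n ≠ 0 ∧ Valued.v (b v) * Valued.v (aF n v) ≤ 1 := by
    intro v
    obtain ⟨n, hn, hn'⟩ := HeightOneSpectrum.adicCompletion.mul_nonZeroDivisor_mem_adicCompletionIntegers
      (R := A) (K := K) v (b v)
    refine ⟨n, nonZeroDivisors.ne_zero hn, ?_⟩
    rw [HeightOneSpectrum.mem_adicCompletionIntegers, map_mul] at hn'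
    exact hn'
  choose n hn0 hn using hex
  refine ⟨∏ v ∈ hfin.toFinset, n v, Finset.prod_ne_zero_iff.2 fun v _ => hn0 v, fun v => ?_⟩
  have hmul : Valued.v ((aF (∏ v ∈ hfin.toFinset, n v) * b) v) =
      (∏ w ∈ hfin.toFinset, v.intValuation (n w)) * Valued.v (b v) := by
    rw [mul_app, map_mul, val_A, map_prod]
  rw [hmul]
  by_cases hv : v ∈ hfin.toFinset
  · rw [← Finset.mul_prod_erase _ _ hv]
    have h1 : ∏ w ∈ hfin.toFinset.erase v, v.intValuation (n w) ≤ 1 :=
      Finset.prod_le_one' fun w _ => v.intValuation_le_one (n w)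
    have h2 : v.intValuation (n v) * Valued.v (b v) ≤ 1 := by
      rw [mul_comm, ← val_A]; exact hn v
    calc v.intValuation (n v) * (∏ w ∈ hfin.toFinset.erase v, v.intValuation (n w)) * Valued.v (b v)
        = (∏ w ∈ hfin.toFinset.erase v, v.intValuation (n w)) *
          (v.intValuation (n v) * Valued.v (b v)) := by ac_rfl
      _ ≤ 1 := mul_le_one' h1 h2
  · have h1 : ∏ w ∈ hfin.toFinset, v.intValuation (n w) ≤ 1 :=
      Finset.prod_le_one' fun w _ => v.intValuation_le_one (n w)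
    have h2 : Valued.v (b v) ≤ 1 := by
      rw [Set.Finite.mem_toFinset, Set.mem_setOf_eq, not_not] at hv
      exact hv
    exact mul_le_one' h1 h2

theorem t_AQ : S_AP → S_AQ := by
  intro hAP
  refine ⟨exists_mul, fun b => ?_⟩
  obtain ⟨N, hN, hNb⟩ := exists_mul b
  obtain ⟨a, ha⟩ := hAP (aF N * b) N hN hNb
  refine ⟨algebraMap A K a / algebraMap A K N, fun v => ?_⟩
  have hN' : algebraMap A K N ≠ 0 := (map_ne_zero_iff _ (IsFractionRing.injective A K)).2 hN
  have h1 : aF N * (b - algebraMap K Af (algebraMap A K a / algebraMap A K N)) = aF N * b - aF a := by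
    rw [mul_sub]
    congr 1
    show algebraMap K Af (algebraMap A K N) * _ = algebraMap K Af (algebraMap A K a)
    rw [← map_mul, mul_div_cancel₀ _ hN']
  have h2 := ha v
  rw [← h1, mul_app, map_mul] at h2
  have h3 := aF_ne_zero hN v
  exact (mul_le_iff_le_one_right (zero_lt_iff.2 h3)).1 h2

/-- a generator of `v` -/
lemma exists_gen (v : Pl) : ∃ p : A, p ≠ 0 ∧ v.intValuation p = exp (-1 : ℤ) ∧
    ∀ w : Pl, w ≠ v → w.intValuation p = 1 := by
  obtain ⟨p, hp⟩ := (IsPrincipalIdealRing.principal v.asIdeal).principal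
  have hp' : v.asIdeal = Ideal.span {p} := hp
  have hp0 : p ≠ 0 := by
    rintro rfl
    apply v.ne_bot
    rw [hp', Ideal.span_singleton_eq_bot]
  refine ⟨p, hp0, v.intValuation_singleton hp0 hp', fun w hw => ?_⟩
  rw [HeightOneSpectrum.intValuation_eq_one_iff]
  intro hpw
  apply hw
  have h1 : v.asIdeal ≤ w.asIdeal := by
    rw [hp', Ideal.span_singleton_le_iff_mem]; exact hpw
  exact (HeightOneSpectrum.ext (v.isMaximal.eq_of_le w.isPrime.ne_top h1)).symm

theorem t_ID : S_ID := by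
  intro d
  classical
  obtain ⟨h0, hfin⟩ := FiniteAdeleRing.isUnit_iff.1 d.isUnit
  rw [Filter.eventually_cofinite] at hfin
  choose p hp0 hp1 hp2 using exists_gen
  have hpK : ∀ v, algebraMap A K (p v) ≠ 0 := fun v =>
    (map_ne_zero_iff _ (IsFractionRing.injective A K)).2 (hp0 v)
  set c : K := ∏ v ∈ hfin.toFinset, (algebraMap A K (p v)) ^ (-(log (Valued.v ((d : Af) v)))) with hc
  have hc0 : c ≠ 0 := Finset.prod_ne_zero_iff.2 fun v _ => zpow_ne_zero _ (hpK v)
  refine ⟨Units.mk0 c hc0, fun w => ?_⟩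
  rw [Units.val_mk0, val_K, hc, map_prod]
  have hterm : ∀ v ∈ hfin.toFinset, v ≠ w →
      w.valuation K ((algebraMap A K (p v)) ^ (-(log (Valued.v ((d : Af) v))))) = 1 := by
    intro v _ hvw
    rw [map_zpow₀, HeightOneSpectrum.valuation_of_algebraMap, hp2 v w hvw.symm, one_zpow]
  have hw0 : Valued.v ((d : Af) w) ≠ 0 := (Valuation.ne_zero_iff _).2 (h0 w)
  by_cases hw : w ∈ hfin.toFinset
  · rw [Finset.prod_eq_single_of_mem w hw (fun v hv hvw => hterm v hv hvw), map_zpow₀,
      HeightOneSpectrum.valuation_of_algebraMap, hp1, ← exp_zsmul]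
    rw [smul_eq_mul, neg_mul_neg, mul_one, exp_log hw0]
  · rw [Finset.prod_eq_one (fun v hv => hterm v hv (by rintro rfl; exact hw hv))]
    rw [Set.Finite.mem_toFinset, Set.mem_setOf_eq, not_not] at hw
    exact hw

end Pool.Agent.T2h59.LL
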