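import Pool.Agent.T2h59.LL.AP

/-!
# The place `∞` of `F_2(t)`: task IF (helper59)
-/

set_option autoImplicit false
set_option linter.all false

open scoped Polynomial WithZero
open IsDedekindDomain WithZero

namespace Pool.Agent.T2h59.LL

open Pool.Agent.T2h66.LL

lemma val_inf (x : K) : Valued.v (algebraMap K Ki x) = RatFunc.inftyValuation (ZMod 2) x :=
  @Valued.valuedCompletion_apply (RatFunc (ZMod 2)) _ ℤᵐ⁰ _ (RatFunc.inftyValued (ZMod 2)) x

lemma dense_inf : DenseRange (algebraMap K Ki) :=
  @UniformSpace.Completion.denseRange_coe (RatFunc (ZMod 2)) (RatFunc.inftyValued (ZMod 2)).toUniformSpace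

lemma inf_poly (a : A) (ha : a ≠ 0) :
    RatFunc.inftyValuation (ZMod 2) (algebraMap A K a) = exp (a.natDegree : ℤ) :=
  RatFunc.inftyValuation.polynomial _ ha

lemma val_aI (a : A) (ha : a ≠ 0) : Valued.v (aI a) = exp (a.natDegree : ℤ) := by
  have : Valued.v (aI a) = RatFunc.inftyValuation (ZMod 2) (algebraMap A K a) := val_inf _
  rw [this, inf_poly _ ha]

lemma val_tI : Valued.v ((tI : Kiˣ) : Ki) = exp (1 : ℤ) := by
  have : Valued.v ((tI : Kiˣ) : Ki) = RatFunc.inftyValuation (ZMod 2) RatFunc.X := val_inf _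
  rw [this, RatFunc.inftyValuation.X]

lemma val_pI : Valued.v ((pI : Kiˣ) : Ki) = exp (-1 : ℤ) := by
  have h : ((pI : Kiˣ) : Ki) = ((tI : Kiˣ) : Ki)⁻¹ := Units.val_inv_eq_inv_val _
  rw [h, map_inv₀, val_tI, ← exp_neg]

lemma approx_inf (x : Ki) : ∃ a : A, Valued.v (x - aI a) < 1 := by
  obtain ⟨c, hc⟩ : ∃ c : K, Valued.v (x - algebraMap K Ki c) < 1 := by
    have hopen : IsOpen {y : Ki | Valued.v (x - y) < 1} := by
      have h1 : IsOpen {y : Ki | Valued.v y < 1} := by
        have := open_ball (1 : Ki)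
        rwa [map_one] at this
      exact h1.preimage (continuous_const.sub continuous_id)
    obtain ⟨y, hy, c, hc⟩ := dense_inf.inter_open_nonempty _ hopen ⟨x, by
      simp only [Set.mem_setOf_eq, sub_self, map_zero]
      exact zero_lt_one⟩
    refine ⟨c, ?_⟩
    rw [← hc] at hy
    exact hy
  set p := c.num with hp
  set q := c.denom with hq
  have hq0 : q ≠ 0 := c.denom_ne_zero
  have hcq : c = algebraMap A K p / algebraMap A K q := (RatFunc.num_div_denom c).symm
  refine ⟨p / q, ?_⟩
  have hq0' : algebraMap A K q ≠ 0 := (map_ne_zero_iff _ (IsFractionRing.injective A K)).2 hq0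
  have h1 : c - algebraMap A K (p / q) = algebraMap A K (p % q) / algebraMap A K q := by
    rw [hcq, eq_div_iff hq0', sub_mul, div_mul_cancel₀ _ hq0', ← map_mul, ← map_sub]
    congr 1
    have := EuclideanDomain.div_add_mod p q
    linear_combination -this
  have h2 : x - aI (p / q) = (x - algebraMap K Ki c) + algebraMap K Ki (c - algebraMap A K (p / q)) := by
    rw [map_sub]
    show x - algebraMap K Ki (algebraMap A K (p / q)) = _
    ring
  rw [h2]
  refine (Valuation.map_add _ _ _).trans_lt (max_lt hc ?_)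
  rw [h1, val_inf, map_div₀, inf_poly _ hq0]
  by_cases hr : p % q = 0
  · rw [hr, map_zero, map_zero, zero_div]
    exact zero_lt_one
  · rw [inf_poly _ hr, ← exp_sub, ← exp_zero, exp_lt_exp]
    have := Polynomial.natDegree_lt_natDegree hr (Polynomial.degree_mod_lt p hq0)
    omega

theorem t_IF : S_IF := by
  refine ⟨val_pI, ?_, approx_inf, fun a ha => val_aI a ha⟩
  intro x hx
  obtain ⟨a, ha⟩ := approx_inf x
  have h1 : Valued.v (aI a) = 1 := by
    have h2 : Valued.v (aI a) = Valued.v x := by
      apply Valuation.map_eq_of_sub_lt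
      rw [Valuation.map_sub_swap, hx]
      exact ha
    rw [h2, hx]
  have ha0 : a ≠ 0 := by
    rintro rfl
    rw [map_zero, map_zero] at h1
    exact zero_ne_one h1
  rw [val_aI a ha0, ← exp_zero, exp_inj] at h1
  have h3 : a.natDegree = 0 := by exact_mod_cast h1
  rw [Polynomial.natDegree_eq_zero] at h3
  obtain ⟨c, rfl⟩ := h3
  have hc : c = 1 := by
    have hc0 : c ≠ 0 := by
      rintro rfl
      exact ha0 Polynomial.C_0
    have hall : ∀ c : ZMod 2, c ≠ 0 → c = 1 := by decide
    exact hall c hc0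
  subst hc
  rw [Polynomial.C_1, map_one] at ha
  exact ha

end Pool.Agent.T2h59.LL
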