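import Pool.Agent.T2h66.LL.Stm

/-!
# Arithmetic of `F_2[t]` and its finite adeles: tasks AP, AQ, ID, IN (helper59)
-/

set_option autoImplicit false
set_option linter.all false

open scoped Polynomial WithZero
open IsDedekindDomain WithZero

namespace Pool.Agent.T2h59.LL

open Pool.Agent.T2h66.LL

lemma val_K (v : Pl) (x : K) : Valued.v (algebraMap K Af x v) = v.valuation K x :=
  HeightOneSpectrum.valuedAdicCompletion_eq_valuation' v x

lemma val_A (v : Pl) (a : A) : Valued.v (aF a v) = v.intValuation a := by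
  have : Valued.v (aF a v) = v.valuation K (algebraMap A K a) := val_K v _
  rw [this, HeightOneSpectrum.valuation_of_algebraMap]

theorem t_IN : S_IN := by
  intro x hx
  obtain ⟨a, ha⟩ := HeightOneSpectrum.mem_integers_of_valuation_le_one (R := A) K x
    (fun v => by rw [← val_K]; exact hx v)
  exact ⟨a, ha⟩

/-- open balls, the radius being the value of an element -/
lemma open_ball {F : Type} [Field F] [hv : Valued F ℤᵐ⁰] (p : F) :
    IsOpen {y : F | Valued.v y < Valued.v p} := by
  have h := Valued.isOpen_ball F (Valued.v.restrict p)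
  simp_rw [Valuation.restrict_lt_iff] at h
  exact h

lemma exists_val (v : Pl) (n : ℕ) : ∃ p : Kv v, Valued.v p = exp (-(n : ℤ)) := by
  obtain ⟨π, hπ⟩ := v.intValuation_exists_uniformizer
  refine ⟨(aF π v) ^ n, ?_⟩
  rw [map_pow, val_A, hπ, ← exp_nsmul]
  simp

/-- local approximation by elements of `A` -/
lemma loc (v : Pl) (x : Kv v) (hx : Valued.v x ≤ 1) (n : ℕ) :
    ∃ a : A, Valued.v (x - ((algebraMap A K a : K) : Kv v)) ≤ exp (-(n : ℤ)) := by
  -- approximation by an element of `K`
  have hd := HeightOneSpectrum.denseRange_algebraMap (R := A) (K := K) (v := v)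
  obtain ⟨c, hc⟩ : ∃ c : K, Valued.v (x - (c : Kv v)) < exp (-(n : ℤ)) := by
    have hopen : IsOpen {y : Kv v | Valued.v (x - y) < exp (-(n : ℤ))} := by
      obtain ⟨p, hp⟩ := exists_val v n
      have h1 : IsOpen {y : Kv v | Valued.v y < exp (-(n : ℤ))} := hp ▸ open_ball p
      exact h1.preimage (continuous_const.sub continuous_id)
    obtain ⟨y, hy, c, hc⟩ := hd.inter_open_nonempty _ hopen ⟨x, by
      simp only [Set.mem_setOf_eq, sub_self, map_zero]
      exact zero_lt_iff.2 exp_ne_zero⟩
    refine ⟨c, ?_⟩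
    rw [← hc] at hy
    exact hy
  have hc1 : v.valuation K c ≤ 1 := by
    rw [← HeightOneSpectrum.valuedAdicCompletion_eq_valuation']
    have h2 : (c : Kv v) = x - (x - c) := by ring
    rw [h2]
    refine (Valuation.map_sub _ _ _).trans (max_le hx (hc.le.trans ?_))
    rw [← exp_zero, exp_le_exp]
    omega
  obtain ⟨a, ha⟩ := HeightOneSpectrum.exists_valuation_sub_lt_of_integer (R := A) (v := v) hc1
    (Units.mk0 (exp (-(n : ℤ))) exp_ne_zero)
  refine ⟨a, ?_⟩
  have h3 : x - ((algebraMap A K a : K) : Kv v) = (x - c) - ((algebraMap A K a - c : K) : Kv v) := by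
    have : ((algebraMap A K a - c : K) : Kv v) = ((algebraMap A K a : K) : Kv v) - (c : Kv v) :=
      map_sub (algebraMap K (Kv v)) _ _
    rw [this]; ring
  rw [h3]
  refine (Valuation.map_sub _ _ _).trans (max_le hc.le ?_)
  rw [HeightOneSpectrum.valuedAdicCompletion_eq_valuation']
  exact ha.le

/-- the places which divide `N` -/
lemma fin_div (N : A) (hN : N ≠ 0) : {v : Pl | v.intValuation N < 1}.Finite := by
  simp_rw [HeightOneSpectrum.intValuation_lt_one_iff_dvd]
  apply Ideal.finite_factors
  simpa only [Submodule.zero_eq_bot, ne_eq, Ideal.span_singleton_eq_bot]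

lemma coe_app (a : A) (v : Pl) : aF a v = ((algebraMap A K a : K) : Kv v) := rfl

lemma sub_app (a b : Af) (v : Pl) : (a - b) v = a v - b v := rfl

lemma mul_app (a b : Af) (v : Pl) : (a * b) v = a v * b v := rfl

theorem t_AP : S_AP := by
  intro o N hN ho
  classical
  set S : Finset Pl := (fin_div N hN).toFinset with hS
  have hval : ∀ v : Pl, ∃ n : ℕ, v.intValuation N = exp (-(n : ℤ)) := by
    intro v
    rw [HeightOneSpectrum.intValuation_if_neg v hN]
    exact ⟨_, rfl⟩
  choose e he using hval
  choose a ha using fun v : Pl => loc v (o v) (ho v) (e v)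
  obtain ⟨y, hy⟩ := IsDedekindDomain.exists_forall_sub_mem_ideal (s := S) (fun v : Pl => v.asIdeal) e
    (fun v _ => v.prime) (fun v _ w _ hvw h => hvw (HeightOneSpectrum.ext h)) (fun v => a v)
  refine ⟨y, fun v => ?_⟩
  rw [val_A, sub_app]
  by_cases hv : v ∈ S
  · have h1 := hy v hv
    rw [← HeightOneSpectrum.intValuation_le_pow_iff_mem] at h1
    have h2 : o v - aF y v = (o v - ((algebraMap A K (a v) : K) : Kv v)) -
        aF (y - a v) v := by
      rw [map_sub, sub_app, coe_app (a v)]; ring
    rw [h2, he]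
    refine (Valuation.map_sub _ _ _).trans (max_le (ha v) ?_)
    rw [val_A]
    exact h1
  · have h1 : v.intValuation N = 1 := by
      rw [hS, Set.Finite.mem_toFinset, Set.mem_setOf_eq, not_lt] at hv
      exact le_antisymm (v.intValuation_le_one N) hv
    rw [h1]
    refine (Valuation.map_sub _ _ _).trans (max_le (ho v) ?_)
    rw [val_A]
    exact v.intValuation_le_one y

end Pool.Agent.T2h59.LL
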